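import Pool.Agent.Helper97.Tate.Goals

/-! # Packet TATE-TIP (MP_d3128a_ag): the nearest centre -/

set_option autoImplicit false

namespace Pool.Agent.Helper95.Tate.TIP

open Pool.Agent.Helper97.Tate

theorem t : S_TIP := by
  intro P b κ' j n0 n i0 i hP hb hκ hi0 hi0b hi hib h1 h2 hdvd
  obtain ⟨m, hm⟩ := hdvd
  obtain ⟨A, hA⟩ : ∃ A : ℤ, A = 2 * P ^ 2 * κ' := ⟨_, rfl⟩
  obtain ⟨D, hD⟩ : ∃ D : ℤ, D = 2 * P ^ 2 * n0 - (2 * P - 1) * j - A * i0 := ⟨_, rfl⟩
  have hApos : 0 < A := by rw [hA]; positivity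
  have hD0 : 0 ≤ D := by rw [hD, hA]; linarith
  have hD1 : D ≤ A - 1 := by
    have h3 : 2 * P ^ 2 * (n0 - κ' * (i0 + 1)) = 2 * P ^ 2 * n0 - A * i0 - A := by rw [hA]; ring
    rw [h3] at h2
    rw [hD]
    linarith
  have e0 : 4 * P ^ 2 * n0 - 2 * (2 * P - 1) * j - 4 * P ^ 2 * κ' * i0 - 2 * P ^ 2 * κ' + 1 =
      2 * D - A + 1 := by rw [hD, hA]; ring
  have e1 : 4 * P ^ 2 * n - 2 * (2 * P - 1) * j - 4 * P ^ 2 * κ' * i - 2 * P ^ 2 * κ' + 1 =
      2 * (D + A * (b * m - (i - i0))) - A + 1 := by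
    have hn : n = n0 + b * κ' * m := by linarith
    rw [hD, hA, hn]; ring
  rw [e0, e1, ← hA]
  refine ⟨?_, ?_⟩
  · apply sq_lt_sq'
    · linarith
    · linarith
  · intro hne
    have ht : b * m - (i - i0) ≠ 0 := by
      intro h0
      rcases lt_trichotomy m 0 with hm0 | hm0 | hm0
      · have : b * m ≤ b * (-1) := mul_le_mul_of_nonneg_left (by omega) (by omega)
        omega
      · subst hm0
        apply hne
        have h5 : i = i0 := by
          rw [mul_zero] at h0
          omega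
        have h6 : n = n0 := by
          rw [mul_zero] at hm
          omega
        rw [h5, h6]
      · have : b * 1 ≤ b * m := mul_le_mul_of_nonneg_left (by omega) (by omega)
        omega
    generalize b * m - (i - i0) = s at ht
    rcases lt_or_gt_of_ne ht with hs | hs
    · have h7 : A * s ≤ A * (-1) := mul_le_mul_of_nonneg_left (by omega) hApos.le
      have h8 : A ^ 2 = (-A) ^ 2 := by ring
      have h9 : (2 * (D + A * s) - A + 1) ^ 2 = (-(2 * (D + A * s) - A + 1)) ^ 2 := by ring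
      rw [h9]
      exact pow_lt_pow_left₀ (by linarith) hApos.le (by norm_num)
    · have h7 : A * 1 ≤ A * s := mul_le_mul_of_nonneg_left (by omega) hApos.le
      exact pow_lt_pow_left₀ (by linarith) hApos.le (by norm_num)

end Pool.Agent.Helper95.Tate.TIP
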